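import Pool.Agent.E5.V7_56
import Pool.Agent.E5.Fin15
import Pool.Agent.P4.SLc85

/-! # PENNY: upper bounds by `Lb` for all diameters `d ≥ 0.15` below the order 7 diameter, and the
linear gap -/

set_option autoImplicit false

namespace Pool.Agent.PEN

open Classical UpperHalfPlane

noncomputable section

/-- the number of edges is at most the bound `Lb` -/
def UB69 (d : ℝ) : Prop := ∀ n : ℕ, 9 ≤ n → eD d n ≤ Lb n

theorem ub_cd69 {d : ℝ} (hd : 0 < d)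
    (h : ∀ P : Finset ℍ, Sep d P → 9 ≤ P.card → cd d P ≤ 2 * Lb P.card) : UB69 d := by
  intro n hn
  apply eD_le
  intro P hc hP
  have h1 := h P hP (by omega)
  have h4 := two_numEdges hd P
  rw [hc] at h1
  omega

theorem ub_main5_69 {d : ℝ} (hd : 0 < d) (ha2 : 2 * Real.pi < 7 * alpha d)
    (hmain : ∀ G : Tg ℍ, G.Geo4 (alpha d) kap (Ust69 d) → DelG G d → HullT G →
      Sep d G.P → 10 ≤ G.P.card →
      (G.D.filter (fun x => G.con x.1 x.2)).card ≤ 2 * Lb G.P.card) : UB69 d :=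
  ub_cd69 hd fun P hP hn => all_gen5 hd ha2 Lb (by rw [Lb_nine71]) Lb_step P.card
    (fun G hG hD hH hS h1 _ => hmain G hG hD hH hS h1) hP hn le_rfl

theorem ub_main4s_69 {d : ℝ} (hd : 0 < d) (ha2 : 2 * Real.pi < 7 * alpha d)
    (hmain : ∀ G : Tg ℍ, G.Geo4 (alpha d) kap (Ust69 d) → DelG G d → HullT G →
      Sep d G.P → PentaG G (alpha d) → 10 ≤ G.P.card →
      (G.D.filter (fun x => G.con x.1 x.2)).card ≤ 2 * Lb G.P.card) : UB69 d :=
  ub_cd69 hd fun P hP hn => all_gen4s hd ha2 Lb (by rw [Lb_nine71]) Lb_step P.card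
    (fun G hG hD hH hS hp h1 _ => hmain G hG hD hH hS hp h1) hP hn le_rfl

theorem ub_num5_69 {d q : ℝ} (hd : 0 < d) (ha2 : 2 * Real.pi < 7 * alpha d) (hS : Side9 d q)
    (hnum : ∀ (n b s t I M : ℕ) (A : ℝ), 10 ≤ n → Num5 d q n b s t I M A → M ≤ 2 * Lb n) :
    UB69 d := by
  refine ub_cd69 hd fun P hP hn => ?_
  refine all_gen4 hd ha2 Lb (by rw [Lb_nine71]) Lb_step P.card
    (fun G hG _ hDel h1 h2 => ?_) hP hn le_rfl
  obtain ⟨s, t, I, A, h3, _⟩ := num5 hG hDel hS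
  exact hnum _ _ _ _ _ _ _ h1 h3

theorem ub_v3_69 {d : ℝ} (hd : 0 < d) (ha2 : 2 * Real.pi < 7 * alpha d)
    (h1 : 611 / 500 ≤ Real.cosh d)
    (h2 : Real.cos (5 * alpha d) ≠ 2 * Real.cos (alpha d) - 1) : UB69 d :=
  ub_cd69 hd fun _ hP hn => p4_all3 hd h1 ha2 h2 hP hn

theorem ub_ds69 {d : ℝ} (hd : 0 < d) (ha2 : 2 * Real.pi < 7 * alpha d)
    (hq : Real.cos (5 * alpha d) = 2 * Real.cos (alpha d) - 1) : UB69 d := by
  obtain ⟨q1, q2⟩ := hds7_52 hd hq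
  exact ub_num5_69 hd ha2 (ds_side52 hd q1 q2)
    (fun n b s t I M A hn h => hnum_ds52 hd hq n b s t I M A hn h)

theorem ub_d2_69 {d : ℝ} (hd : 0 < d) (ha2 : 2 * Real.pi < 7 * alpha d)
    (q1 : 5452382 / 10000000 ≤ Real.cos (alpha d))
    (q2 : Real.cos (alpha d) ≤ 5452383 / 10000000) : UB69 d :=
  ub_num5_69 hd ha2 (d2_side52 hd q1 q2)
    (fun n b s t I M A hn h => hnum_d2_52 hd q1 q2 n b s t I M A hn h)

theorem ub_d3_69 {d : ℝ} (hd : 0 < d) (ha2 : 2 * Real.pi < 7 * alpha d)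
    (q1 : 534396 / 1000000 ≤ Real.cos (alpha d))
    (q2 : Real.cos (alpha d) ≤ 5343961 / 10000000) : UB69 d :=
  ub_main4s_69 hd ha2
    (fun _ hG hD _ _ hP h1 => main_d3_52 hd q1 q2 hG hD hP h1)

theorem ub_d4_of69 {d : ℝ} (hd : 0 < d) (ha2 : 2 * Real.pi < 7 * alpha d)
    (q1 : 5277507 / 10000000 ≤ Real.cos (alpha d))
    (q2 : Real.cos (alpha d) ≤ 5277508 / 10000000)
    (hrow : ∀ G : Tg ℍ, G.Geo4 (alpha d) kap (Ust69 d) → DelG G d → HullT G → Sep d G.P →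
      PentaG G (alpha d) → TokRow G (alpha d) (1 / 8)) : UB69 d := by
  refine ub_main4s_69 hd ha2 (fun G hG hD hH hS hP h1 => ?_)
  obtain ⟨s, t, I, A, h, hiD, hiI, hAs⟩ := num5 hG hD (d4_side52 hd q1 q2)
  exact hnum_d4_52 hd q1 q2 _ _ s t I _ A h1 h ((hrow G hG hD hH hS hP).num hiD hiI hAs)

theorem ub_d5_of69 {d : ℝ} (hd : 0 < d) (ha2 : 2 * Real.pi < 7 * alpha d)
    (q1 : 523259 / 1000000 ≤ Real.cos (alpha d))
    (q2 : Real.cos (alpha d) ≤ 5232591 / 10000000)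
    (hrow : ∀ G : Tg ℍ, G.Geo4 (alpha d) kap (Ust69 d) → DelG G d → HullT G → Sep d G.P →
      PentaG G (alpha d) → TokRow G (alpha d) (1 / 12)) : UB69 d := by
  refine ub_main4s_69 hd ha2 (fun G hG hD hH hS hP h1 => ?_)
  obtain ⟨s, t, I, A, h, hiD, hiI, hAs⟩ := num5 hG hD (d5_side52 hd q1 q2)
  exact hnum_d5_52 hd q1 q2 _ _ s t I _ A h1 h ((hrow G hG hD hH hS hP).num hiD hiI hAs)

theorem ub_B_of69 {d : ℝ} (hd : 0 < d) (ha2 : 2 * Real.pi < 7 * alpha d)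
    (h1 : 1077 / 1000 ≤ Real.cosh d) (h2 : Real.cosh d ≤ 611 / 500)
    (hrow : ∀ G : Tg ℍ, G.Geo4 (alpha d) kap (Ust69 d) → DelG G d → HullT G → Sep d G.P →
      PentaG G (alpha d) → TokRow G (alpha d) 0) : UB69 d := by
  refine ub_main4s_69 hd ha2 (fun G hG hD hH hS hP hn => ?_)
  obtain ⟨t, I, A, k1, k2, k3, k4⟩ := num4 G hG (Ust69_zero d) (Ust69_mono d) (Ust69_sup d)
  have h5 := (hrow G hG hD hH hS hP).num k2 k3 k4
  rw [zero_mul, sub_zero] at h5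
  exact hnumB71 hd h1 h2 hn ⟨k1, h5⟩

theorem ub_d7_of69 {d : ℝ} (hd : 0 < d) (ha2 : 2 * Real.pi < 7 * alpha d)
    (q1 : 5175725 / 10000000 ≤ Real.cos (alpha d))
    (q2 : Real.cos (alpha d) ≤ 5175726 / 10000000)
    (hrow : ∀ G : Tg ℍ, G.Geo4 (alpha d) kap (Ust69 d) → DelG G d → HullT G → Sep d G.P →
      PentaG G (alpha d) → TokRow G (alpha d) 0) : UB69 d := by
  refine ub_main4s_69 hd ha2 (fun G hG hD hH hS hP h1 => ?_)
  obtain ⟨s, t, I, A, h, hiD, hiI, hAs⟩ := num5 hG hD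
    (d7_side52 hd (by norm_num at q1 ⊢; exact q1) (by norm_num at q2 ⊢; exact q2))
  exact hnum_d7_52 hd q1 q2 _ _ s t I _ A h1 h ((hrow G hG hD hH hS hP).num hiD hiI hAs)

theorem ub_R69 {d : ℝ} (hd : 0 < d) (ha2 : 2 * Real.pi < 7 * alpha d)
    (hA3 : 538 / 10000 ≤ A3 (alpha d)) (hC : Real.cosh d ≤ 611 / 500)
    (hrow : ∀ G : Tg ℍ, G.Geo4 (alpha d) kap (Ust69 d) → DelG G d → HullT G → Sep d G.P →
      PentaG G (alpha d) → TokRow G (alpha d) 0 ∧ DBRow71 G (alpha d)) : UB69 d :=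
  ub_main5_69 hd ha2 (fun _ hG hD hH hS hn => by
    have hP := penta71 hG hD hS
    obtain ⟨r1, r2⟩ := hrow _ hG hD hH hS hP
    exact mainR71 hd hA3 hC hG hD hP r1 r2 hn)

theorem ub_d8_69 {d : ℝ} (hd : 0 < d) (ha2 : 2 * Real.pi < 7 * alpha d)
    (hC : Real.cosh d ≤ 611 / 500)
    (q1 : 5156587 / 10000000 < Real.cos (alpha d))
    (q2 : Real.cos (alpha d) < 5156588 / 10000000)
    (hb : ∀ j ≤ 3, ch66 d j < qa66 d)
    (h8 : 2 * opp51 d (ch66 d 3) = 2 * Real.pi - 3 * alpha d) : UB69 d := by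
  have hC1 := cosh_gt66 hd
  have hA3 : 538 / 10000 ≤ A3 (alpha d) := by
    apply A3_ge538_69 hd
    rw [cos_alpha hd, lt_div_iff₀ (by linarith)] at q1
    linarith
  exact ub_R69 hd ha2 hA3 hC (fun G hG hD hH _ hP => rows8_57 hG hD hH hP hb h8 q1 q2)

theorem ub_V6_69 {d : ℝ} (hd : 0 < d) (ha2 : 2 * Real.pi < 7 * alpha d)
    (hA3 : 538 / 10000 ≤ A3 (alpha d)) (hC : Real.cosh d ≤ 611 / 500) (hE : ¬ Exc66 d) :
    UB69 d :=
  ub_main5_69 hd ha2 (fun _ hG hD _ hS hn =>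
    main_V6_71 hd hA3 hC hE hG hD (penta71 hG hD hS) hn)

theorem ub_d4_69 {d : ℝ} (hd : 0 < d) (ha2 : 2 * Real.pi < 7 * alpha d)
    (q1 : 5277507 / 10000000 < Real.cos (alpha d)) (q2 : Real.cos (alpha d) < 5277508 / 10000000)
    (a0 : ch66 d 0 < qa66 d) (a1 : ch66 d 1 < qa66 d)
    (h : 2 * opp51 d (ch66 d 1) = 2 * Real.pi - 3 * alpha d) : UB69 d :=
  ub_d4_of69 hd ha2 q1.le q2.le (fun _ hG hD _ _ hP => row4_62 hG hD hP (fun j hj => by
    interval_cases j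
    · exact a0
    · exact a1) h)

theorem ub_d6_69 {d : ℝ} (hd : 0 < d) (ha2 : 2 * Real.pi < 7 * alpha d)
    (h1 : 1077 / 1000 ≤ Real.cosh d) (h2 : Real.cosh d ≤ 611 / 500)
    (a0 : ch66 d 0 < qa66 d) (a1 : ch66 d 1 < qa66 d) (a2 : ch66 d 2 < qa66 d)
    (h : 2 * opp51 d (ch66 d 2) = 2 * Real.pi - 3 * alpha d) : UB69 d :=
  ub_B_of69 hd ha2 h1 h2 (fun _ hG hD hH _ hP => row6_62 hG hD hH hP (fun j hj => by
    interval_cases j
    · exact a0
    · exact a1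
    · exact a2) h)

theorem ub_d5_69 {d : ℝ} (hd : 0 < d) (ha2 : 2 * Real.pi < 7 * alpha d)
    (q1 : 5232590 / 10000000 < Real.cos (alpha d)) (q2 : Real.cos (alpha d) < 5232591 / 10000000)
    (a0 : ch66 d 0 < qa66 d) (a1 : ch66 d 1 < qa66 d) (h : ch66 d 2 = qa66 d) : UB69 d :=
  ub_d5_of69 hd ha2 (by norm_num at q1 ⊢; exact q1.le) q2.le
    (fun _ hG hD hH _ hP => row5_62 hG hD hH hP (fun j hj => by
      interval_cases j
      · exact a0
      · exact a1) h)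

theorem ub_d7_69 {d : ℝ} (hd : 0 < d) (ha2 : 2 * Real.pi < 7 * alpha d)
    (q1 : 5175725 / 10000000 < Real.cos (alpha d)) (q2 : Real.cos (alpha d) < 5175726 / 10000000)
    (hb : ∀ j < 3, ch66 d j < qa66 d) (h : ch66 d 3 = qa66 d) : UB69 d :=
  ub_d7_of69 hd ha2 q1.le q2.le
    (fun _ hG hD hH _ hP => row7_62 hG hD hH hP (by norm_num at q2 ⊢; linarith)
      (fun j hj => hb j (by omega)) h)

/-- the upper bound for all `d ≥ 0.356` below the order 7 diameter -/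
theorem ub_v6_69 {d : ℝ} (hd : 0 < d) (ha2 : 2 * Real.pi < 7 * alpha d) (h0 : 89 / 250 ≤ d) :
    UB69 d := by
  have h1 := cosh_ge356_56 h0
  rcases le_or_gt (611 / 500) (Real.cosh d) with hC | hC
  · by_cases hq : Real.cos (5 * alpha d) = 2 * Real.cos (alpha d) - 1
    · exact ub_ds69 hd ha2 hq
    · exact ub_v3_69 hd ha2 hC hq
  · by_cases hE : Exc66 d
    · rcases le_or_gt (1077 / 1000) (Real.cosh d) with hB | hB
      · rcases exc57h hd hB hC.le hE with ⟨a, b, _⟩ | ⟨a, b, _⟩ | ⟨a, b, a0, a1, hh⟩ |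
          ⟨a, b, a0, a1, hh⟩ | ⟨a, b, a0, a1, a2, hh⟩
        · exact ub_d2_69 hd ha2 a.le b.le
        · exact ub_d3_69 hd ha2 (by norm_num at a ⊢; linarith) (by norm_num at b ⊢; linarith)
        · exact ub_d4_69 hd ha2 a b a0 a1 hh
        · exact ub_d5_69 hd ha2 a b a0 a1 hh
        · exact ub_d6_69 hd ha2 hB hC.le a0 a1 a2 hh
      · rcases exc56 hd (by linarith) hB.le hE with ⟨a, b, a0, hh⟩ | ⟨a, b, a0, hh⟩
        · exact ub_d7_69 hd ha2 a b a0 hh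
        · exact ub_d8_69 hd ha2 hC.le a b a0 hh
    · exact ub_V6_69 hd ha2 (A3_ge538_56 hd h1) hC.le hE

open Pool.Agent.PEN.E5 Pool.Agent.PEN.Cl in
/-- **the upper bound for all `d ≥ 0.15` below the order 7 diameter** -/
theorem ub_all69 {d : ℝ} (hd : 0 < d) (ha2 : 2 * Real.pi < 7 * alpha d) (h0 : 3 / 20 ≤ d) :
    UB69 d := by
  rcases lt_or_ge d (89 / 250) with hd2 | hd2
  · have hC := cosh_le71 hd hd2
    refine ub_main5_69 hd ha2 (fun G hG hD hH hS hn1 => ?_)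
    rcases Nat.lt_or_ge G.P.card 98 with hn2 | hn2
    · obtain ⟨t, I, A, hN, hiD, hiI, _⟩ := num4 G hG (Ust69_zero d) (Ust69_mono d) (Ust69_sup d)
      apply fin52 hN
      have hE1 := hN.E1
      exact G_num52 hd hC hn1 (by omega) (by omega) hN.low hN.up hN.G
    · exact hU69 hd h0 hd2 G hG hD hH hS hn2 (row14_15 d hd hd2 G hG hD hH hS)
  · exact ub_v6_69 hd ha2 hd2

/-- `Lb` for at least 93 points -/
theorem Lb_le69 {n : ℕ} (hn : 93 ≤ n) : 21 * Lb n + 135 ≤ 50 * n := by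
  unfold Lb
  rw [if_neg (by omega), if_pos hn]
  have h1 : (7 * n - 15) / 3 ≤ (50 * n - 135) / 21 := by omega
  have h2 : (19 * n - 48) / 8 ≤ (50 * n - 135) / 21 := by omega
  rw [max_eq_right (max_le h1 h2)]
  omega

/-- **the upper bound with slope `50 / 21`** for all diameters `d ≥ 0.15` except the order 7
diameter -/
theorem eD_up69 {e d : ℝ} (he : 0 < e) (ha : alpha e = 2 * Real.pi / 7) (h0 : 3 / 20 ≤ d)
    (hde : d ≠ e) {n : ℕ} (hn : 93 ≤ n) : 21 * eD d n + 135 ≤ 50 * n := by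
  have hd : 0 < d := by linarith
  rcases lt_or_gt_of_ne hde with h | h
  · have ha2 : 2 * Real.pi < 7 * alpha d := by
      have := alpha_anti hd h
      rw [ha] at this
      linarith
    have h1 := ub_all69 hd ha2 h0 n (by omega)
    have h2 := Lb_le69 hn
    omega
  · have ha2 : alpha d < 2 * Real.pi / (7 : ℕ) := by
      have := alpha_anti he h
      rw [ha] at this
      exact_mod_cast this
    have h1 := eD_bound (k := 7) (by norm_num) hd ha2 (n := n) (by omega)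
    omega

/-- **the lower bound with slope `131 / 55`** at the order 7 diameter -/
theorem eD_low69 {e : ℝ} (he : 0 < e) (ha : alpha e = 2 * Real.pi / 7) {n : ℕ}
    (hn : 198 ≤ n) : 131 * n ≤ 55 * eD e n + 417 := by
  obtain ⟨Q, hQc, hQs, hQ⟩ := strip4 he ha n hn
  have h2 := le_eD he hQc hQs
  have h3 := two_numEdges he Q
  omega

end

end Pool.Agent.PEN
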